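import Mathlib

/-!
# Small subdigraphs of given minimum outdegree in digraphs without large induced matchings
-/

set_option autoImplicit false

namespace Pool.Agent.H65.SD

open Finset


variable {V : Type} [DecidableEq V] (G : V → V → Prop) [DecidableRel G]

/-- the out-neighbours of `v` in `W` -/
def outS (W : Finset V) (v : V) : Finset V := W.filter (fun w => G v w)

/-- independent sets -/
def Indep (I : Finset V) : Prop := ∀ u ∈ I, ∀ v ∈ I, ¬ G u v

/-- If all outdegrees in `X` are at most `s` then `X` has an independent subset with at least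
`|X| / (2 s + 1)` elements. -/
theorem exists_indep (hl : ∀ v, ¬ G v v) (s : ℕ) :
    ∀ (n : ℕ) (X : Finset V), X.card = n → (∀ x ∈ X, (outS G X x).card ≤ s) →
      ∃ I ⊆ X, Indep G I ∧ X.card ≤ (2 * s + 1) * I.card := by
  intro n
  induction n using Nat.strong_induction_on with
  | _ n ih =>
    intro X hn hX
    rcases X.eq_empty_or_nonempty with h0 | h0
    · subst h0
      exact ⟨∅, subset_rfl, fun u hu => absurd hu (Finset.notMem_empty u), by simp⟩
    · -- a vertex with few neighbours
      have hsum : ∑ x ∈ X, (X.filter (fun w => G w x)).card = ∑ x ∈ X, (outS G X x).card := by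
        have := Finset.sum_card_bipartiteAbove_eq_sum_card_bipartiteBelow (s := X) (t := X)
          (fun a b => G a b)
        simp only [Finset.bipartiteAbove, Finset.bipartiteBelow] at this
        exact this.symm
      have hle : ∑ x ∈ X, ((outS G X x).card + (X.filter (fun w => G w x)).card) ≤
          ∑ x ∈ X, 2 * s := by
        rw [Finset.sum_add_distrib, hsum]
        have h1 : ∑ x ∈ X, (outS G X x).card ≤ ∑ x ∈ X, s := Finset.sum_le_sum hX
        have h2 : ∑ x ∈ X, 2 * s = ∑ x ∈ X, s + ∑ x ∈ X, s := by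
          rw [← Finset.sum_add_distrib]
          refine Finset.sum_congr rfl fun x _ => by ring
        omega
      obtain ⟨x, hx, hxs⟩ := Finset.exists_le_of_sum_le h0 hle
      set N : Finset V := insert x (outS G X x ∪ X.filter (fun w => G w x)) with hN
      have hNX : N ⊆ X := by
        intro y hy
        rw [hN, mem_insert, mem_union] at hy
        rcases hy with rfl | hy | hy
        · exact hx
        · exact (mem_filter.1 hy).1
        · exact (mem_filter.1 hy).1
      have hNc : N.card ≤ 2 * s + 1 := by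
        have h1 := Finset.card_insert_le x (outS G X x ∪ X.filter (fun w => G w x))
        have h2 := Finset.card_union_le (outS G X x) (X.filter (fun w => G w x))
        rw [← hN] at h1
        omega
      have hxN : x ∈ N := mem_insert_self _ _
      have hcard : (X \ N).card + N.card = X.card := Finset.card_sdiff_add_card_eq_card hNX
      have hlt : (X \ N).card < n := by
        have : 0 < N.card := Finset.card_pos.2 ⟨x, hxN⟩
        omega
      obtain ⟨I, hI1, hI2, hI3⟩ := ih _ hlt (X \ N) rfl fun y hy =>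
        (Finset.card_le_card (Finset.filter_subset_filter _ Finset.sdiff_subset)).trans
          (hX y (Finset.sdiff_subset hy))
      have hxI : x ∉ I := fun h => (mem_sdiff.1 (hI1 h)).2 hxN
      have hno : ∀ y ∈ I, ¬ G x y ∧ ¬ G y x := by
        intro y hy
        obtain ⟨hy1, hy2⟩ := mem_sdiff.1 (hI1 hy)
        rw [hN, mem_insert, mem_union] at hy2
        push Not at hy2
        refine ⟨fun h => hy2.2.1 (mem_filter.2 ⟨hy1, h⟩), fun h => hy2.2.2 (mem_filter.2 ⟨hy1, h⟩)⟩
      refine ⟨insert x I, ?_, ?_, ?_⟩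
      · intro y hy
        rcases mem_insert.1 hy with rfl | hy
        · exact hx
        · exact Finset.sdiff_subset (hI1 hy)
      · intro u hu v hv
        rcases mem_insert.1 hu with hu' | hu'
        · rcases mem_insert.1 hv with hv' | hv'
          · rw [hu', hv']
            exact hl _
          · rw [hu']
            exact (hno v hv').1
        · rcases mem_insert.1 hv with hv' | hv'
          · rw [hv']
            exact (hno u hu').2
          · exact hI2 u hu' v hv'
      · rw [Finset.card_insert_of_notMem hxI]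
        have h5 : (2 * s + 1) * (I.card + 1) = (2 * s + 1) * I.card + (2 * s + 1) := by ring
        omega

/-- A minimal vertex set with all outdegrees at least `s`: every vertex has an in-neighbour whose outdegree
is exactly `s`. -/
theorem exists_dom (hl : ∀ v, ¬ G v v) (s : ℕ) (hs : 1 ≤ s) (W : Finset V) (hW : W.Nonempty)
    (ho : ∀ w ∈ W, s ≤ (outS G W w).card) :
    ∃ U ⊆ W, U.Nonempty ∧ (∀ u ∈ U, s ≤ (outS G U u).card) ∧
      ∀ v ∈ U, ∃ x ∈ U.filter (fun x => (outS G U x).card = s), G x v := by
  classical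
  let F : Finset (Finset V) := W.powerset.filter
    (fun U => U.Nonempty ∧ ∀ u ∈ U, s ≤ (outS G U u).card)
  have hF : F.Nonempty := ⟨W, mem_filter.2 ⟨mem_powerset.2 subset_rfl, hW, ho⟩⟩
  obtain ⟨U, hU, hmin⟩ := Finset.exists_min_image F Finset.card hF
  obtain ⟨hUW, hUn, hUo⟩ := mem_filter.1 hU
  rw [mem_powerset] at hUW
  refine ⟨U, hUW, hUn, hUo, ?_⟩
  intro v hv
  by_contra hcon
  push Not at hcon
  have hmem : U.erase v ∈ F := by
    refine mem_filter.2 ⟨mem_powerset.2 ((Finset.erase_subset v U).trans hUW), ?_, ?_⟩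
    · have h1 := hUo v hv
      obtain ⟨w, hw⟩ := Finset.card_pos.1 (lt_of_lt_of_le hs h1)
      obtain ⟨hw1, hw2⟩ := mem_filter.1 hw
      refine ⟨w, mem_erase.2 ⟨?_, hw1⟩⟩
      rintro rfl
      exact hl _ hw2
    · intro u hu
      obtain ⟨huv, huU⟩ := mem_erase.1 hu
      have h1 := hUo u huU
      by_cases hG : G u v
      · have hne : (outS G U u).card ≠ s := fun h => hcon u (mem_filter.2 ⟨huU, h⟩) hG
        have h2 : outS G (U.erase v) u = (outS G U u).erase v := by
          ext w
          simp only [outS, mem_filter, mem_erase]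
          tauto
        have h3 : v ∈ outS G U u := mem_filter.2 ⟨hv, hG⟩
        rw [h2, Finset.card_erase_of_mem h3]
        omega
      · have h2 : outS G (U.erase v) u = outS G U u := by
          ext w
          simp only [outS, mem_filter, mem_erase]
          constructor
          · rintro ⟨⟨-, h⟩, h'⟩
            exact ⟨h, h'⟩
          · rintro ⟨h, h'⟩
            refine ⟨⟨?_, h⟩, h'⟩
            rintro rfl
            exact hG h'
        rw [h2]
        exact h1
  have h5 := hmin _ hmem
  rw [Finset.card_erase_of_mem hv] at h5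
  have : 0 < U.card := Finset.card_pos.2 hUn
  omega

/-- the ends of an arc -/
def ends (p : V × V) : Finset V := {p.1, p.2}

/-- a set of pairwise disjoint arcs -/
def IsMat (M : Finset (V × V)) : Prop :=
  (∀ p ∈ M, G p.1 p.2) ∧ ∀ p ∈ M, ∀ p' ∈ M, p ≠ p' → Disjoint (ends p) (ends p')

/-- there is an arc from `p` to `p'` -/
def ArcTo (p p' : V × V) : Prop := p ≠ p' ∧ ∃ x ∈ ends p, ∃ y ∈ ends p', G x y

/-- The key bound. -/
theorem card_le (hl : ∀ v, ¬ G v v) (s m : ℕ) (hs : 1 ≤ s) (U : Finset V)
    (hdom : ∀ v ∈ U, ∃ x ∈ U.filter (fun x => (outS G U x).card = s), G x v)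
    (hm : ∀ M : Finset (V × V), (∀ p ∈ M, p.1 ∈ U ∧ p.2 ∈ U) → IsMat G M →
      (∀ p ∈ M, ∀ p' ∈ M, ¬ ArcTo G p p') → M.card ≤ m) :
    U.card ≤ s * (2 * s + 1) * ((4 * s - 1) * m) := by
  classical
  set X : Finset V := U.filter (fun x => (outS G U x).card = s) with hXd
  have hXU : X ⊆ U := Finset.filter_subset _ _
  have hXs : ∀ x ∈ X, (outS G U x).card = s := fun x hx => (mem_filter.1 hx).2
  have hsub : U ⊆ X.biUnion (fun x => outS G U x) := by
    intro v hv
    obtain ⟨x, hx, hxv⟩ := hdom v hv
    exact mem_biUnion.2 ⟨x, hx, mem_filter.2 ⟨hv, hxv⟩⟩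
  have h6 : U.card ≤ X.card * s :=
    (Finset.card_le_card hsub).trans (Finset.card_biUnion_le_card_mul _ _ _ fun x hx => (hXs x hx).le)
  -- a maximum matching
  let F : Finset (Finset (V × V)) := (X ×ˢ X).powerset.filter (fun M => IsMat G M)
  have hF : F.Nonempty := ⟨∅, mem_filter.2 ⟨mem_powerset.2 (Finset.empty_subset _),
    fun p hp => absurd hp (Finset.notMem_empty p), fun p hp => absurd hp (Finset.notMem_empty p)⟩⟩
  obtain ⟨M, hM, hmax⟩ := Finset.exists_max_image F Finset.card hF
  obtain ⟨hM1, hM2, hM3⟩ := mem_filter.1 hM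
  rw [mem_powerset] at hM1
  have hMX : ∀ p ∈ M, p.1 ∈ X ∧ p.2 ∈ X := fun p hp => Finset.mem_product.1 (hM1 hp)
  set Y : Finset V := M.biUnion ends with hY
  have hYc : Y.card ≤ M.card * 2 :=
    Finset.card_biUnion_le_card_mul _ _ _ fun p _ => Finset.card_le_two
  have hind : ∀ u ∈ X \ Y, ∀ v ∈ X \ Y, ¬ G u v := by
    intro u hu v hv huv
    obtain ⟨hu1, hu2⟩ := mem_sdiff.1 hu
    obtain ⟨hv1, hv2⟩ := mem_sdiff.1 hv
    have hnew : (u, v) ∉ M := fun h => hu2 (mem_biUnion.2 ⟨(u, v), h, by simp [ends]⟩)
    have hdj : ∀ p ∈ M, Disjoint (ends p) (ends (u, v)) := by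
      intro p hp
      refine Finset.disjoint_left.2 fun z hz hz' => ?_
      have hzY : z ∈ Y := mem_biUnion.2 ⟨p, hp, hz⟩
      simp only [ends, mem_insert, mem_singleton] at hz'
      rcases hz' with rfl | rfl
      · exact hu2 hzY
      · exact hv2 hzY
    have hmem : insert (u, v) M ∈ F := by
      refine mem_filter.2 ⟨mem_powerset.2 ?_, ?_, ?_⟩
      · intro p hp
        rcases mem_insert.1 hp with hp' | hp'
        · rw [hp']
          exact Finset.mem_product.2 ⟨hu1, hv1⟩
        · exact hM1 hp'
      · intro p hp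
        rcases mem_insert.1 hp with hp' | hp'
        · rw [hp']
          exact huv
        · exact hM2 p hp'
      · intro p hp p' hp' hne
        rcases mem_insert.1 hp with h1 | h1
        · rcases mem_insert.1 hp' with h2 | h2
          · exact absurd (h1.trans h2.symm) hne
          · rw [h1]
            exact (hdj p' h2).symm
        · rcases mem_insert.1 hp' with h2 | h2
          · rw [h2]
            exact hdj p h1
          · exact hM3 p h1 p' h2 hne
    have h7 := hmax _ hmem
    rw [Finset.card_insert_of_notMem hnew] at h7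
    omega
  -- the rest of `X` is dominated by the matching
  have hrest : X \ Y ⊆ M.biUnion (fun p => ((outS G U p.1).erase p.2) ∪ outS G U p.2) := by
    intro v hv
    obtain ⟨hv1, hv2⟩ := mem_sdiff.1 hv
    obtain ⟨x, hx, hxv⟩ := hdom v (hXU hv1)
    have hxY : x ∈ Y := by
      by_contra hcon
      exact hind x (mem_sdiff.2 ⟨hx, hcon⟩) v hv hxv
    obtain ⟨p, hp, hxp⟩ := mem_biUnion.1 hxY
    refine mem_biUnion.2 ⟨p, hp, ?_⟩
    have hvp : v ≠ p.2 := by
      rintro rfl
      exact hv2 (mem_biUnion.2 ⟨p, hp, by simp [ends]⟩)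
    simp only [ends, mem_insert, mem_singleton] at hxp
    rcases hxp with rfl | rfl
    · exact mem_union_left _ (mem_erase.2 ⟨hvp, mem_filter.2 ⟨hXU hv1, hxv⟩⟩)
    · exact mem_union_right _ (mem_filter.2 ⟨hXU hv1, hxv⟩)
  have hZ : ∀ p ∈ M, (((outS G U p.1).erase p.2) ∪ outS G U p.2).card ≤ 2 * s - 1 := by
    intro p hp
    obtain ⟨h1, h2⟩ := hMX p hp
    have h3 : p.2 ∈ outS G U p.1 := mem_filter.2 ⟨hXU h2, hM2 p hp⟩
    have h4 := Finset.card_union_le ((outS G U p.1).erase p.2) (outS G U p.2)
    rw [Finset.card_erase_of_mem h3, hXs _ h1, hXs _ h2] at h4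
    omega
  have hrc : (X \ Y).card ≤ M.card * (2 * s - 1) :=
    (Finset.card_le_card hrest).trans (Finset.card_biUnion_le_card_mul _ _ _ hZ)
  have hXc : X.card ≤ (2 * s + 1) * M.card := by
    have h1 : X.card ≤ (X \ Y).card + Y.card := by
      have := Finset.card_le_card (show X ⊆ (X \ Y) ∪ Y from by
        rw [Finset.sdiff_union_self_eq_union]
        exact Finset.subset_union_left)
      exact this.trans (Finset.card_union_le _ _)
    have h2 : M.card * (2 * s - 1) + M.card * 2 = (2 * s + 1) * M.card := by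
      obtain ⟨k, rfl⟩ : ∃ k, s = k + 1 := ⟨s - 1, by omega⟩
      have : 2 * (k + 1) - 1 = 2 * k + 1 := by omega
      rw [this]
      ring
    omega
  -- an induced submatching
  have hout : ∀ p ∈ M, (outS (ArcTo G) M p).card ≤ 2 * s - 1 := by
    intro p hp
    have hsub2 : outS (ArcTo G) M p ⊆ (((outS G U p.1).erase p.2) ∪ outS G U p.2).biUnion
        (fun y => M.filter (fun p' => y ∈ ends p')) := by
      intro p' hp'
      obtain ⟨h1, h2, x, hx, y, hy, hxy⟩ := mem_filter.1 hp'
      have hyX : y ∈ X := by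
        simp only [ends, mem_insert, mem_singleton] at hy
        rcases hy with rfl | rfl
        · exact (hMX p' h1).1
        · exact (hMX p' h1).2
      refine mem_biUnion.2 ⟨y, ?_, mem_filter.2 ⟨h1, hy⟩⟩
      have hyp : y ≠ p.2 := by
        rintro rfl
        exact Finset.disjoint_left.1 (hM3 p hp p' h1 h2) (by simp [ends]) hy
      simp only [ends, mem_insert, mem_singleton] at hx
      rcases hx with rfl | rfl
      · exact mem_union_left _ (mem_erase.2 ⟨hyp, mem_filter.2 ⟨hXU hyX, hxy⟩⟩)
      · exact mem_union_right _ (mem_filter.2 ⟨hXU hyX, hxy⟩)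
    have h8 := (Finset.card_le_card hsub2).trans (Finset.card_biUnion_le_card_mul _ _ 1 fun y _ => by
      refine Finset.card_le_one.2 fun p1 hp1 p2 hp2 => ?_
      by_contra hne
      exact Finset.disjoint_left.1 (hM3 p1 (mem_filter.1 hp1).1 p2 (mem_filter.1 hp2).1 hne)
        (mem_filter.1 hp1).2 (mem_filter.1 hp2).2)
    rw [mul_one] at h8
    exact h8.trans (hZ p hp)
  obtain ⟨I, hI1, hI2, hI3⟩ := exists_indep (ArcTo G) (fun p h => h.1 rfl) (2 * s - 1) M.card M rfl hout
  have h9 : I.card ≤ m := hm I (fun p hp => ⟨hXU (hMX p (hI1 hp)).1, hXU (hMX p (hI1 hp)).2⟩)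
    ⟨fun p hp => hM2 p (hI1 hp), fun p hp p' hp' hne => hM3 p (hI1 hp) p' (hI1 hp') hne⟩
    fun p hp p' hp' => hI2 p hp p' hp'
  have h10 : 2 * (2 * s - 1) + 1 = 4 * s - 1 := by omega
  rw [h10] at hI3
  calc U.card ≤ X.card * s := h6
    _ ≤ ((2 * s + 1) * M.card) * s := Nat.mul_le_mul_right _ hXc
    _ ≤ ((2 * s + 1) * ((4 * s - 1) * I.card)) * s :=
        Nat.mul_le_mul_right _ (Nat.mul_le_mul_left _ hI3)
    _ ≤ ((2 * s + 1) * ((4 * s - 1) * m)) * s :=
        Nat.mul_le_mul_right _ (Nat.mul_le_mul_left _ (Nat.mul_le_mul_left _ h9))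
    _ = s * (2 * s + 1) * ((4 * s - 1) * m) := by ring

theorem out_sdiff (W T : Finset V) (v : V) :
    (outS G W v).card ≤ (outS G (W \ T) v).card + T.card := by
  have h : outS G W v ⊆ outS G (W \ T) v ∪ T := by
    intro w hw
    obtain ⟨h1, h2⟩ := mem_filter.1 hw
    by_cases hT : w ∈ T
    · exact mem_union_right _ hT
    · exact mem_union_left _ (mem_filter.2 ⟨mem_sdiff.2 ⟨h1, hT⟩, h2⟩)
  exact (Finset.card_le_card h).trans (Finset.card_union_le _ _)

/-- Many disjoint small sets of outdegree at least `s`. -/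
theorem exists_many (s c : ℕ) (hs : 1 ≤ s) (W : Finset V) (hW : W.Nonempty)
    (ha : ∀ W' ⊆ W, W'.Nonempty → (∀ w ∈ W', s ≤ (outS G W' w).card) →
      ∃ U ⊆ W', U.Nonempty ∧ (∀ u ∈ U, s ≤ (outS G U u).card) ∧ U.card ≤ c) :
    ∀ q : ℕ, (∀ w ∈ W, (q - 1) * c + s ≤ (outS G W w).card) →
      ∃ A : ℕ → Finset V, (∀ i < q, A i ⊆ W ∧ (A i).Nonempty ∧
        (∀ u ∈ A i, s ≤ (outS G (A i) u).card) ∧ (A i).card ≤ c) ∧
        ∀ i < q, ∀ j < q, i ≠ j → Disjoint (A i) (A j) := by
  intro q
  induction q with
  | zero => exact fun _ => ⟨fun _ => ∅, fun i hi => absurd hi (Nat.not_lt_zero i),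
      fun i hi => absurd hi (Nat.not_lt_zero i)⟩
  | succ q ih =>
    intro ho
    rw [Nat.add_sub_cancel] at ho
    obtain ⟨A, hA1, hA2⟩ := ih fun w hw =>
      (Nat.add_le_add_right (Nat.mul_le_mul_right _ (Nat.sub_le q 1)) s).trans (ho w hw)
    set T : Finset V := (Finset.range q).biUnion A with hT
    have hTc : T.card ≤ q * c := by
      have := Finset.card_biUnion_le_card_mul (Finset.range q) A c
        fun i hi => (hA1 i (mem_range.1 hi)).2.2.2
      rwa [Finset.card_range] at this
    have ho' : ∀ w ∈ W \ T, s ≤ (outS G (W \ T) w).card := by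
      intro w hw
      have h1 := ho w (Finset.sdiff_subset hw)
      have h2 := out_sdiff G W T w
      omega
    have hne : (W \ T).Nonempty := by
      obtain ⟨w, hw⟩ := hW
      have h1 := ho w hw
      have h2 := out_sdiff G W T w
      have h3 : 0 < (outS G (W \ T) w).card := by omega
      obtain ⟨y, hy⟩ := Finset.card_pos.1 h3
      exact ⟨y, (mem_filter.1 hy).1⟩
    obtain ⟨U, hU1, hU2, hU3, hU4⟩ := ha (W \ T) Finset.sdiff_subset hne ho'
    have hdis : ∀ i < q, Disjoint (A i) U := by
      intro i hi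
      refine Finset.disjoint_left.2 fun x hx hxU => (mem_sdiff.1 (hU1 hxU)).2 ?_
      exact mem_biUnion.2 ⟨i, mem_range.2 hi, hx⟩
    refine ⟨Function.update A q U, fun i hi => ?_, fun i hi j hj hij => ?_⟩
    · rcases Nat.lt_succ_iff_lt_or_eq.1 hi with h | h
      · rw [Function.update_of_ne h.ne]
        exact hA1 i h
      · subst h
        rw [Function.update_self]
        exact ⟨hU1.trans Finset.sdiff_subset, hU2, hU3, hU4⟩
    · rcases Nat.lt_succ_iff_lt_or_eq.1 hi with h | h
      · rw [Function.update_of_ne h.ne]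
        rcases Nat.lt_succ_iff_lt_or_eq.1 hj with h' | h'
        · rw [Function.update_of_ne h'.ne]
          exact hA2 i h j h' hij
        · subst h'
          rw [Function.update_self]
          exact hdis i h
      · subst h
        rw [Function.update_self]
        rcases Nat.lt_succ_iff_lt_or_eq.1 hj with h' | h'
        · rw [Function.update_of_ne h'.ne]
          exact (hdis j h').symm
        · exact absurd h'.symm hij

end Pool.Agent.H65.SD
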