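import Mathlib
import Pool.Agent.H65.SD.Base

/-!
# Small subdigraphs of given minimum outdegree in digraphs without many pairwise anticomplete walks
-/

set_option autoImplicit false

namespace Pool.Agent.H65.SD

open Finset

variable {V : Type} [DecidableEq V] (G : V → V → Prop) [DecidableRel G]

/-- The key bound, for walks with `l` arcs. -/
theorem card_le_walks (s m l : ℕ) (U : Finset V)
    (hdom : ∀ v ∈ U, ∃ x ∈ U.filter (fun x => (outS G U x).card = s), G x v)
    (hm : ∀ M : Finset (Fin (l + 1) → V), (∀ p ∈ M, (∀ i, p i ∈ U) ∧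
        ∀ i : Fin l, G (p i.castSucc) (p i.succ)) →
      (∀ p ∈ M, ∀ p' ∈ M, p ≠ p' → ∀ i j, p i ≠ p' j ∧ ¬ G (p i) (p' j)) → M.card ≤ m) :
    U.card ≤ s * ((2 * (((l + 1) * s + 1) * ∑ j ∈ range (l + 1), s ^ j) - 1) * m) := by
  classical
  set X : Finset V := U.filter (fun x => (outS G U x).card = s) with hXd
  have hXU : X ⊆ U := Finset.filter_subset _ _
  have hXs : ∀ x ∈ X, (outS G U x).card = s := fun x hx => (mem_filter.1 hx).2
  choose! f hfX hfG using hdom
  have hit : ∀ (i : ℕ) (x : V), x ∈ X → f^[i] x ∈ X := by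
    intro i
    induction i with
    | zero => exact fun x hx => hx
    | succ i ih =>
      intro x hx
      rw [Function.iterate_succ_apply']
      exact hfX _ (hXU (ih x hx))
  have hsub : U ⊆ X.biUnion (fun x => outS G U x) := fun v hv =>
    mem_biUnion.2 ⟨f v, hfX v hv, mem_filter.2 ⟨hv, hfG v hv⟩⟩
  have h6 : U.card ≤ X.card * s :=
    (Finset.card_le_card hsub).trans (Finset.card_biUnion_le_card_mul _ _ _ fun x hx => (hXs x hx).le)
  -- the fibres
  let D : ℕ → V → Finset V := fun j z => X.filter (fun y => f^[j] y = z)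
  have hDe : ∀ j z, z ∉ X → D j z = ∅ := by
    intro j z hz
    refine Finset.filter_eq_empty_iff.2 fun y hy h => hz ?_
    rw [← h]
    exact hit j y hy
  have hD : ∀ j z, (D j z).card ≤ s ^ j := by
    intro j
    induction j with
    | zero =>
      intro z
      rw [pow_zero]
      refine Finset.card_le_one.2 fun a ha b hb => ?_
      have h1 : a = z := (mem_filter.1 ha).2
      have h2 : b = z := (mem_filter.1 hb).2
      rw [h1, h2]
    | succ j ih =>
      intro z
      by_cases hz : z ∈ X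
      · have h1 : D (j + 1) z ⊆ (outS G U z).biUnion (D j) := by
          intro y hy
          obtain ⟨hyX, hyz⟩ := mem_filter.1 hy
          rw [Function.iterate_succ_apply'] at hyz
          have h2 := hit j y hyX
          refine mem_biUnion.2 ⟨f^[j] y, mem_filter.2 ⟨hXU h2, ?_⟩, mem_filter.2 ⟨hyX, rfl⟩⟩
          have h3 := hfG _ (hXU h2)
          rwa [hyz] at h3
        have h4 := (Finset.card_le_card h1).trans
          (Finset.card_biUnion_le_card_mul _ _ (s ^ j) fun z' _ => ih z')
        rw [hXs z hz] at h4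
        rw [pow_succ, mul_comm]
        exact h4
      · rw [hDe _ z hz, Finset.card_empty]
        exact Nat.zero_le _
  set S : ℕ := ∑ j ∈ range (l + 1), s ^ j with hS
  have hS1 : 1 ≤ S := by
    have h1 : s ^ 0 ≤ S := Finset.single_le_sum (f := fun j => s ^ j) (fun _ _ => Nat.zero_le _)
      (mem_range.2 (Nat.succ_pos l))
    rwa [pow_zero] at h1
  let R : V → V → Prop := fun x y => x ≠ y ∧ ∃ i ≤ l, ∃ j ≤ l,
    (f^[i] x = f^[j] y ∨ G (f^[i] x) (f^[j] y))
  have hout : ∀ x ∈ X, (outS R X x).card ≤ ((l + 1) * s + 1) * S - 1 := by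
    intro x hx
    set Z : Finset V := insert (f^[l] x) ((range (l + 1)).biUnion fun i => outS G U (f^[i] x)) with hZ
    have hZm : ∀ i ≤ l, f^[i] x ∈ Z := by
      intro i hi
      rcases Nat.eq_or_lt_of_le hi with h | h
      · rw [h]
        exact mem_insert_self _ _
      · refine mem_insert_of_mem (mem_biUnion.2 ⟨i + 1, mem_range.2 (by omega), ?_⟩)
        rw [Function.iterate_succ_apply']
        exact mem_filter.2 ⟨hXU (hit i x hx), hfG _ (hXU (hit i x hx))⟩
    have hZc : Z.card ≤ (l + 1) * s + 1 := by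
      have h1 := Finset.card_insert_le (f^[l] x) ((range (l + 1)).biUnion fun i => outS G U (f^[i] x))
      have h2 := Finset.card_biUnion_le_card_mul (range (l + 1)) (fun i => outS G U (f^[i] x)) s
        fun i _ => (hXs _ (hit i x hx)).le
      rw [card_range] at h2
      rw [← hZ] at h1
      omega
    set B : Finset V := Z.biUnion fun z => (range (l + 1)).biUnion fun j => D j z with hB
    have hBc : B.card ≤ ((l + 1) * s + 1) * S := by
      refine (Finset.card_biUnion_le_card_mul _ _ S fun z _ => ?_).trans (Nat.mul_le_mul_right _ hZc)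
      exact Finset.card_biUnion_le.trans (Finset.sum_le_sum fun j _ => hD j z)
    have hxB : x ∈ B := mem_biUnion.2 ⟨x, hZm 0 (Nat.zero_le _),
      mem_biUnion.2 ⟨0, mem_range.2 (Nat.succ_pos l), mem_filter.2 ⟨hx, rfl⟩⟩⟩
    have hsubB : outS R X x ⊆ B.erase x := by
      intro y hy
      obtain ⟨hyX, hne, i, hi, j, hj, hij⟩ := mem_filter.1 hy
      refine mem_erase.2 ⟨fun h => hne h.symm, ?_⟩
      refine mem_biUnion.2 ⟨f^[j] y, ?_, mem_biUnion.2 ⟨j, mem_range.2 (by omega),
        mem_filter.2 ⟨hyX, rfl⟩⟩⟩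
      rcases hij with h | h
      · rw [← h]
        exact hZm i hi
      · exact mem_insert_of_mem (mem_biUnion.2 ⟨i, mem_range.2 (by omega),
          mem_filter.2 ⟨hXU (hit j y hyX), h⟩⟩)
    have h9 := Finset.card_le_card hsubB
    rw [Finset.card_erase_of_mem hxB] at h9
    omega
  obtain ⟨I, hI1, hI2, hI3⟩ := exists_indep R (fun p h => h.1 rfl)
    (((l + 1) * s + 1) * S - 1) X.card X rfl hout
  let w : V → Fin (l + 1) → V := fun x i => f^[l - (i : ℕ)] x
  have hwinj : Function.Injective w := by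
    intro x y hxy
    have h1 := congrFun hxy (Fin.last l)
    simpa [w] using h1
  have h9 : I.card ≤ m := by
    rw [← Finset.card_image_of_injective I hwinj]
    refine hm (I.image w) (fun p hp => ?_) fun p hp p' hp' hne i j => ?_
    · obtain ⟨x, hx, rfl⟩ := mem_image.1 hp
      have hxX := hI1 hx
      refine ⟨fun i => hXU (hit _ x hxX), fun i => ?_⟩
      have h1 : l - ((i.castSucc : Fin (l + 1)) : ℕ) = (l - ((i.succ : Fin (l + 1)) : ℕ)) + 1 := by
        have := i.2
        simp only [Fin.val_castSucc, Fin.val_succ]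
        omega
      change G (f^[l - ((i.castSucc : Fin (l + 1)) : ℕ)] x) (f^[l - ((i.succ : Fin (l + 1)) : ℕ)] x)
      rw [h1, Function.iterate_succ_apply']
      exact hfG _ (hXU (hit _ x hxX))
    · obtain ⟨x, hx, rfl⟩ := mem_image.1 hp
      obtain ⟨y, hy, rfl⟩ := mem_image.1 hp'
      have hxy : x ≠ y := fun h => hne (by rw [h])
      have h1 := hI2 x hx y hy
      refine ⟨fun h => h1 ⟨hxy, l - i, Nat.sub_le _ _, l - j, Nat.sub_le _ _, Or.inl h⟩,
        fun h => h1 ⟨hxy, l - i, Nat.sub_le _ _, l - j, Nat.sub_le _ _, Or.inr h⟩⟩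
  have h10 : 2 * (((l + 1) * s + 1) * S - 1) + 1 = 2 * (((l + 1) * s + 1) * S) - 1 := by
    have h11 : 1 ≤ ((l + 1) * s + 1) * S := Nat.mul_pos (Nat.succ_pos _) hS1
    omega
  rw [h10] at hI3
  calc U.card ≤ X.card * s := h6
    _ ≤ ((2 * (((l + 1) * s + 1) * S) - 1) * I.card) * s := Nat.mul_le_mul_right _ hI3
    _ ≤ ((2 * (((l + 1) * s + 1) * S) - 1) * m) * s :=
        Nat.mul_le_mul_right _ (Nat.mul_le_mul_left _ h9)
    _ = s * ((2 * (((l + 1) * s + 1) * S) - 1) * m) := by ring

end Pool.Agent.H65.SD
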